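import Pool.Agent.Helper29.ZR.Props
import Pool.Agent.Helper62.RC.Mp
import Pool.Agent.Helper67.RC.Ped
import Pool.Agent.Helper32.RC.CutDown

/-!
# MP_b55b7c_an, project ZR: packet RoomX
-/

open scoped ENNReal NNReal InnerProductSpace ComplexOrder
open Filter Topology

attribute [-instance] CStarMatrix.instAlgebra CStarMatrix.instModule CStarMatrix.instSMul
  CStarMatrix.instMulAction CStarMatrix.instDistribMulAction

set_option linter.unusedSectionVars false

noncomputable section
namespace RC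
universe u

section
variable {A : Type u} [CStarAlgebra A] [PartialOrder A] [StarOrderedRing A]
variable {ν : Type} [Fintype ν] [DecidableEq ν] {G : Type} [Fintype G] [DecidableEq G]

/-- The `g`-th block of a column. -/
def rxBlk (z : CStarMatrix (G × ν) Unit A) (g : G) : CStarMatrix ν Unit A :=
  CStarMatrix.ofMatrix fun i j => z (g, i) j

/-- The column with given blocks. -/
def rxOf (z : G → CStarMatrix ν Unit A) : CStarMatrix (G × ν) Unit A :=
  CStarMatrix.ofMatrix fun p j => z p.1 p.2 j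

theorem rxBlk_of (z : G → CStarMatrix ν Unit A) (g : G) : rxBlk (rxOf z) g = z g := rfl

theorem rxBlk_sub (x y : CStarMatrix (G × ν) Unit A) (g : G) :
    rxBlk (x - y) g = rxBlk x g - rxBlk y g := rfl

theorem rxBlk_mul_one1 (x : CStarMatrix (G × ν) Unit A) (e : A) (g : G) :
    rxBlk (x * one1 e) g = rxBlk x g * one1 e := rfl

theorem rxBlk_rep (c : CStarMatrix ν ν A) (z : CStarMatrix (G × ν) Unit A) (g : G) :
    rxBlk (rep G c * z) g = c * rxBlk z g := by
  ext i j
  show (rep G c * z) (g, i) j = (c * rxBlk z g) i j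
  rw [CStarMatrix.mul_apply, CStarMatrix.mul_apply, Fintype.sum_prod_type,
    Finset.sum_eq_single g]
  · refine Finset.sum_congr rfl fun l _ => ?_
    show (if g = g then c i l else 0) * z (g, l) j = c i l * z (g, l) j
    rw [if_pos rfl]
  · intro h _ hne
    refine Finset.sum_eq_zero fun l _ => ?_
    show (if g = h then c i l else 0) * z (h, l) j = 0
    rw [if_neg (Ne.symm hne), zero_mul]
  · intro h
    exact absurd (Finset.mem_univ _) h

theorem rx_conj_mul (D : CStarMatrix (G × ν) Unit A) :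
    D.conjTranspose * D = ∑ g, (rxBlk D g).conjTranspose * rxBlk D g := by
  ext i j
  have h1 : (∑ g, (rxBlk D g).conjTranspose * rxBlk D g) i j =
      ∑ g, ((rxBlk D g).conjTranspose * rxBlk D g) i j := Matrix.sum_apply _ _ _ _
  rw [h1, CStarMatrix.mul_apply, Fintype.sum_prod_type]
  refine Finset.sum_congr rfl fun g _ => ?_
  rw [CStarMatrix.mul_apply]
  rfl

theorem rx_norm_sq (D : CStarMatrix (G × ν) Unit A) :
    ‖D‖ ^ 2 ≤ ∑ g, ‖rxBlk D g‖ ^ 2 := by
  have h1 := cm_norm_sq_le D.conjTranspose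
  rw [cm_norm_conj, cm_conj_conj, rx_conj_mul] at h1
  refine h1.trans ((norm_sum_le _ _).trans (Finset.sum_le_sum fun g _ => ?_))
  calc ‖(rxBlk D g).conjTranspose * rxBlk D g‖
      ≤ ‖(rxBlk D g).conjTranspose‖ * ‖rxBlk D g‖ := cm_norm_mul_le _ _
    _ = ‖rxBlk D g‖ ^ 2 := by rw [cm_norm_conj, pow_two]

theorem rx_norm_le (D : CStarMatrix (G × ν) Unit A) (κ : ℝ) (hκ : 0 ≤ κ) [Nonempty G]
    (h : ∀ g, ‖rxBlk D g‖ ≤ κ / Fintype.card G) : ‖D‖ ≤ κ := by
  have hN : (1 : ℝ) ≤ Fintype.card G := by exact_mod_cast Fintype.card_pos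
  have h1 := rx_norm_sq D
  have h2 : ∑ g, ‖rxBlk D g‖ ^ 2 ≤ ∑ _g : G, (κ / Fintype.card G) ^ 2 :=
    Finset.sum_le_sum fun g _ => by
      have := h g
      gcongr
  rw [Finset.sum_const, Finset.card_univ, nsmul_eq_mul] at h2
  have h3 : (Fintype.card G : ℝ) * (κ / Fintype.card G) ^ 2 ≤ κ ^ 2 := by
    have e1 : (Fintype.card G : ℝ) * (κ / Fintype.card G) ^ 2 = κ ^ 2 / Fintype.card G := by
      field_simp
    rw [e1]
    exact div_le_self (sq_nonneg κ) hN
  exact le_of_sq_le_sq (h1.trans (h2.trans h3)) hκ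

theorem rx_one1_mul (a b : A) : one1 (a * b) = one1 a * one1 b :=
  map_mul (one1H (A := A)) a b

theorem rx_one1_conj (a : A) : (one1 a).conjTranspose = one1 (star a) := rfl

/-- `c z e (c z e)*` is below `e`. -/
theorem rx_cu (x : CStarMatrix ν Unit A) {e : A} (he : 0 ≤ e) :
    Cu ((x * one1 e) * (x * one1 e).conjTranspose) (one1 e) := by
  intro ε hε
  obtain ⟨s, hs0, hs⟩ : ∃ s : A, 0 ≤ s ∧ s * s = e :=
    ⟨CFC.sqrt e, CFC.sqrt_nonneg e, CFC.sqrt_mul_sqrt_self e he⟩
  have hss : star s = s := hs0.isSelfAdjoint.star_eq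
  have hes : star e = e := he.isSelfAdjoint.star_eq
  refine ⟨x * one1 s, ?_⟩
  have key : x * one1 s * one1 e * (x * one1 s).conjTranspose =
      (x * one1 e) * (x * one1 e).conjTranspose := by
    rw [cm_conj_mul, cm_conj_mul, rx_one1_conj, rx_one1_conj, hss, hes]
    have h1 : one1 s * (one1 e * one1 s) = one1 e * one1 e := by
      rw [← rx_one1_mul, ← rx_one1_mul, ← rx_one1_mul, ← hs]
      congr 1
      simp only [mul_assoc]
    calc x * one1 s * one1 e * (one1 s * x.conjTranspose)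
        = x * (one1 s * (one1 e * one1 s)) * x.conjTranspose := by
          simp only [cm_assoc]
      _ = x * one1 e * (one1 e * x.conjTranspose) := by
          rw [h1]
          simp only [cm_assoc]
  rw [key, sub_self, norm_zero]
  exact hε

theorem rx_nonneg_entry {h : CStarMatrix Unit Unit A} (hh : 0 ≤ h) : 0 ≤ h () () := by
  obtain ⟨s, hs⟩ := CStarAlgebra.nonneg_iff_eq_mul_star_self.mp hh
  have h1 : h () () = s () () * star (s () ()) := by
    rw [hs, CStarMatrix.mul_apply]
    simp [CStarMatrix.star_apply]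
  rw [h1]
  exact mul_star_self_nonneg _

end

theorem rx_inj {A R : Type u} [CStarAlgebra A] [CStarAlgebra R] {G : Type} [Group G] [Fintype G]
    {α : G → A ≃⋆ₐ[ℂ] A} {k : A →⋆ₐ[ℂ] R} {w : G → R} (hk : IsCross α k w) :
    Function.Injective k := by
  classical
  intro a b hab
  obtain ⟨f, -, hu⟩ := hk.2.2.2 (k a)
  have h1 : ∀ c : A, k c = k a → (fun g : G => if g = 1 then c else 0) = f := by
    intro c hc
    refine hu _ ?_
    rw [← hc]
    simp only
    rw [Finset.sum_eq_single 1]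
    · have hone : w 1 = 1 := by
        have h2 := hk.2.1 1 1
        rw [mul_one] at h2
        have h3 := (Unitary.mem_iff.mp (hk.1 1)).1
        calc w 1 = star (w 1) * w 1 * w 1 := by rw [h3, one_mul]
          _ = star (w 1) * (w 1 * w 1) := by rw [mul_assoc]
          _ = star (w 1) * w 1 := by rw [← h2]
          _ = 1 := h3
      rw [if_pos rfl, hone, mul_one]
    · intro g _ hg
      rw [if_neg hg, map_zero, zero_mul]
    · intro h
      exact absurd (Finset.mem_univ _) h
  have h2 := (h1 a rfl).trans (h1 b hab.symm).symm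
  have h3 := congrFun h2 1
  simpa using h3

theorem roomXP (hPull : QPullP.{u}) (hAdd : CuAddP.{u}) (hMono : QMonoP.{u}) (hQD : QDsumP.{u})
    (hRk : RkSP.{u}) (hPert : PertP.{u}) (hX : CompXP.{u}) : RoomXP.{u} := by
  intro A R _ _ _ _ _ _ G _ _ _ α k w hα hk ν _ _ c e r hc hcinv he heinv hr hT hdim θ hθ
  have hkinj : Function.Injective k := rx_inj hk
  have : Nonempty G := ⟨1⟩
  have hN : (0 : ℝ) < Fintype.card G := by exact_mod_cast Fintype.card_pos
  set αh : G → (A →⋆ₐ[ℂ] A) := fun g => ((α g : A ≃⋆ₐ[ℂ] A) : A →⋆ₐ[ℂ] A) with hαh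
  have hinj : ∀ g, Function.Injective (αh g) := fun g => (α g).injective
  have hα1 : ∀ x, α 1 x = x := by
    intro x
    have h := hα 1 1 x
    rw [mul_one] at h
    exact ((α 1).injective h).symm
  have hes : star e = e := he.isSelfAdjoint.star_eq
  have hcs : c.conjTranspose = c := hc.isSelfAdjoint.star_eq
  have hcinv' : ∀ g, mp (αh g) c = c := hcinv
  intro z κ ε hκ hε
  set T : G → CStarMatrix ν Unit A := fun g => c * rxBlk z g * one1 e with hTd
  set X : G → CStarMatrix ν ν A := fun g =>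
    rxBlk z g * one1 (e * e) * (rxBlk z g).conjTranspose with hXd
  have hTT : ∀ g, T g * (T g).conjTranspose = c * X g * c := by
    intro g
    simp only [hTd, hXd]
    rw [cm_conj_mul, cm_conj_mul, hcs, rx_one1_conj, hes, rx_one1_mul]
    simp only [cm_assoc]
  set P : G × G → CStarMatrix ν ν A := fun p => mp (αh p.1) (T p.2 * (T p.2).conjTranspose)
    with hP
  have hP0 : ∀ p, 0 ≤ P p := fun p =>
    (H62.mp_nonneg_iff (αh p.1) (hinj p.1) _).1 (cm_mul_conj_nonneg _)
  set S : CStarMatrix ν ν A := ∑ p, P p with hS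
  set Y : CStarMatrix ν ν A := ∑ p : G × G, mp (αh p.1) (X p.2) with hY
  have hS0 : 0 ≤ S := Finset.sum_nonneg fun p _ => hP0 p
  have hSY : S = c * Y * c := by
    rw [hS, hY, Finset.mul_sum, Finset.sum_mul]
    refine Finset.sum_congr rfl fun p _ => ?_
    simp only [hP]
    rw [hTT, H62.mp_mul, H62.mp_mul, hcinv']
  have hTS : ∀ g, T g * (T g).conjTranspose ≤ S := by
    intro g
    have h1 : P (1, g) = T g * (T g).conjTranspose := by
      ext i l
      exact hα1 _
    rw [← h1]
    exact Finset.single_le_sum (f := P) (fun p _ => hP0 p) (Finset.mem_univ (1, g))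
  have hSinv : ∀ g, mp (αh g) S = S := by
    intro g
    have hentry : ∀ i l, S i l = ∑ p : G × G, α p.1 ((T p.2 * (T p.2).conjTranspose) i l) := by
      intro i l
      exact Matrix.sum_apply _ _ _ _
    ext i l
    show α g (S i l) = S i l
    rw [hentry, map_sum]
    have h2 : ∀ p : G × G, α g (α p.1 ((T p.2 * (T p.2).conjTranspose) i l)) =
        α (g * p.1) ((T p.2 * (T p.2).conjTranspose) i l) := fun p => (hα g p.1 _).symm
    simp_rw [h2]
    exact Fintype.sum_equiv ((Equiv.mulLeft g).prodCongr (Equiv.refl G)) _ _ fun p => rfl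
  -- the rank of `S`
  have hSdim : ∀ σ : QTrace A, σ.dim S ≤ (Fintype.card G : ℝ) ^ 2 * σ.dim (one1 e) := by
    intro σ
    have h := CutDown.dim_sum_le hAdd hMono hQD σ P hP0 (σ.dim (one1 e)) (fun p => by
      obtain ⟨ω, hω⟩ := hPull A A (αh p.1) (hinj p.1) σ
      have h1 := hω ν (T p.2 * (T p.2).conjTranspose) (cm_mul_conj_nonneg _)
      have h2 := hω Unit (one1 e) (one1_nonneg he)
      have h3 : mp (αh p.1) (one1 e) = one1 e := by
        rw [mp_one1]
        congr 1
        exact heinv p.1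
      rw [h3] at h2
      show σ.dim (mp (αh p.1) (T p.2 * (T p.2).conjTranspose)) ≤ σ.dim (one1 e)
      rw [← h1, ← h2]
      exact hMono A ω ν Unit _ _ (cm_mul_conj_nonneg _) (one1_nonneg he)
        (rx_cu (c * rxBlk z p.2) he)) Finset.univ
    rw [Finset.card_univ, Fintype.card_prod] at h
    push_cast at h
    rw [pow_two]
    exact h
  have hyp : ∀ δ ε : ℝ, 0 < δ → 0 < ε → ∃ (v : G → CStarMatrix ν Unit A) (l : A), 0 ≤ l ∧
      SmT θ l ∧ one1 e ≤ ∑ i, (v i).conjTranspose * (c * (nE δ S * nE δ S) * c) * v i +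
        one1 l + ε • (1 : CStarMatrix Unit Unit A) := by
    intro δ ε' hδ hε'
    obtain ⟨hb0, hbdim⟩ := hRk A ν c S δ hc hS0 hδ
    set b : CStarMatrix ν ν A := c * (nE δ S * nE δ S) * c with hb
    have hninv : ∀ g, mp (αh g) (nE δ S) = nE δ S := by
      intro g
      unfold nE
      rw [H62.mp_cfc (αh g) _ (by fun_prop) S hS0.isSelfAdjoint, hSinv]
    have hbinv : ∀ g, mp (αh g) b = b := by
      intro g
      rw [hb, H62.mp_mul, H62.mp_mul, H62.mp_mul, hcinv', hninv]
    set δ' : ℝ := min ε' (θ / Fintype.card G) with hδ'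
    have hδ'0 : 0 < δ' := lt_min hε' (div_pos hθ hN)
    have hgap : ∀ σ' : QTrace R, σ'.dim (one1 (k e)) + r < σ'.dim (mp k b) := by
      intro σ'
      obtain ⟨ω, hω⟩ := hPull R A k hkinj σ'
      have h1 := hω ν b hb0
      have h2 := hω Unit (one1 e) (one1_nonneg he)
      rw [mp_one1] at h2
      have h3 := hdim ω
      have h4 := hbdim ω
      have h5 := hSdim ω
      rw [← h1, ← h2]
      linarith
    have hk0 : 0 ≤ one1 (k e) := one1_nonneg (map_nonneg k he)
    obtain ⟨y, h', hh0, hle, hlt⟩ := hT Unit ν (one1 (k e)) (mp k b) hk0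
      ((H62.mp_nonneg_iff k hkinj b).1 hb0) hgap δ' hδ'0
    have hone : one1 (h' () ()) = h' := by
      ext i l
      rfl
    rw [← hone] at hle
    obtain ⟨v, l, hl0, hle2, hld⟩ := hX A R G α k w hα hk ν b e y (h' () ()) δ' hb0 hbinv
      (rx_nonneg_entry hh0) hle
    refine ⟨v, l, hl0, fun φ σ hφ => ?_, hle2.trans ?_⟩
    · obtain ⟨σ', hσ'⟩ := hld φ σ hφ
      rw [hone] at hσ'
      have h1 := hlt σ'
      have h2 : (Fintype.card G : ℝ) * σ'.dim h' ≤ Fintype.card G * (θ / Fintype.card G) :=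
        mul_le_mul_of_nonneg_left (h1.le.trans (min_le_right _ _)) hN.le
      rw [mul_div_cancel₀ θ hN.ne'] at h2
      exact hσ'.trans h2
    · have h1 : δ' • (1 : CStarMatrix Unit Unit A) ≤ ε' • (1 : CStarMatrix Unit Unit A) :=
        smul_le_smul_of_nonneg_right (min_le_left _ _) zero_le_one
      gcongr
  obtain ⟨z', δ, l, hδ, hl0, hl, hnorm, hle⟩ := hPert A ν G c S Y e (fun g => rxBlk z g) hc he
    hS0 hSY hTS θ hyp (κ / Fintype.card G) ε (div_pos hκ hN) hε
  refine ⟨rxOf z', δ, l, hδ, hl0, hl, ?_, ?_⟩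
  · refine rx_norm_le _ κ hκ.le fun g => ?_
    rw [rxBlk_sub, rxBlk_mul_one1, rxBlk_mul_one1, rxBlk_rep, rxBlk_rep, rxBlk_of]
    exact hnorm g
  · rw [rx_conj_mul]
    have h1 : ∀ g, rxBlk (rep G c * rxOf z' * one1 e) g = c * z' g * one1 e := by
      intro g
      rw [rxBlk_mul_one1, rxBlk_rep, rxBlk_of]
    simp_rw [h1]
    exact hle

end RC
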